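import Pool.Agent.J4H5.TL.Geo9

/-!
# Project TL: a grid with two even and two odd transversal lines (job GEO8)
-/

set_option autoImplicit false

namespace Pool.Agent.J4H5.TL

open Pool.Agent.J4H13.LA Pool.Agent.J4H13.TL

lemma perm_fact : ∀ σ₁ σ₂ ρ : Equiv.Perm (Fin 3), Equiv.Perm.sign σ₁ = Equiv.Perm.sign σ₂ → σ₁ ≠ σ₂ →
    Equiv.Perm.sign ρ = Equiv.Perm.sign σ₁ → ρ ≠ σ₁ → ρ ≠ σ₂ → ∀ i : Fin 3, σ₁ i ≠ σ₂ i ∧ σ₁ i ≠ ρ i ∧ σ₂ i ≠ ρ i := by
  decide

lemma sum_three {f : Fin 3 → ℂ} : ∀ {i j k : Fin 3}, i ≠ j → i ≠ k → j ≠ k → f i + f j + f k = f 0 + f 1 + f 2 := by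
  intro i j k h1 h2 h3
  fin_cases i <;> fin_cases j <;> fin_cases k <;> first | exact absurd rfl h1 | exact absurd rfl h2 | exact absurd rfl h3 | rfl |
    (simp only [Fin.mk_one, Fin.zero_eta, Fin.reduceFinMk]; ring)

/-- the alternating-free sum -/
def DD (lam y : Fin 3 → ℂ) (ρ : Equiv.Perm (Fin 3)) : ℂ := lam 0 * y (ρ 0) + lam 1 * y (ρ 1) + lam 2 * y (ρ 2)

lemma DD_all {lam y : Fin 3 → ℂ} (hlam : lam 0 + lam 1 + lam 2 = 0) {σ₁ σ₂ : Equiv.Perm (Fin 3)}
    (hs : Equiv.Perm.sign σ₁ = Equiv.Perm.sign σ₂) (hne : σ₁ ≠ σ₂) (h1 : DD lam y σ₁ = 0) (h2 : DD lam y σ₂ = 0)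
    (ρ : Equiv.Perm (Fin 3)) (hρ : Equiv.Perm.sign ρ = Equiv.Perm.sign σ₁) : DD lam y ρ = 0 := by
  by_cases e1 : ρ = σ₁
  · rw [e1]; exact h1
  by_cases e2 : ρ = σ₂
  · rw [e2]; exact h2
  have h := perm_fact σ₁ σ₂ ρ hs hne hρ e1 e2
  have s0 := sum_three (f := y) (h 0).1 (h 0).2.1 (h 0).2.2
  have s1 := sum_three (f := y) (h 1).1 (h 1).2.1 (h 1).2.2
  have s2 := sum_three (f := y) (h 2).1 (h 2).2.1 (h 2).2.2
  unfold DD at h1 h2 ⊢
  linear_combination lam 0 * s0 + lam 1 * s1 + lam 2 * s2 - h1 - h2 + (y 0 + y 1 + y 2) * hlam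

lemma DD_contra {lam y : Fin 3 → ℂ} (hlam : lam 0 + lam 1 + lam 2 = 0) (hl0 : lam 0 ≠ 0) (hy : y 0 ≠ y 1) (hy' : y 1 ≠ y 2)
    (h : ∀ ρ : Equiv.Perm (Fin 3), DD lam y ρ = 0) : False := by
  have h1 := h 1
  have h2 := h (Equiv.swap 0 1)
  have h3 := h (Equiv.swap 1 2)
  unfold DD at h1 h2 h3
  have e1 : (Equiv.swap (0 : Fin 3) 1) 0 = 1 := by decide
  have e2 : (Equiv.swap (0 : Fin 3) 1) 1 = 0 := by decide
  have e3 : (Equiv.swap (0 : Fin 3) 1) 2 = 2 := by decide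
  have e4 : (Equiv.swap (1 : Fin 3) 2) 0 = 0 := by decide
  have e5 : (Equiv.swap (1 : Fin 3) 2) 1 = 2 := by decide
  have e6 : (Equiv.swap (1 : Fin 3) 2) 2 = 1 := by decide
  rw [e1, e2, e3] at h2
  rw [e4, e5, e6] at h3
  simp only [Equiv.Perm.coe_one, id_eq] at h1
  have h4 : (lam 0 - lam 1) * (y 0 - y 1) = 0 := by linear_combination h1 - h2
  have h5 : (lam 1 - lam 2) * (y 1 - y 2) = 0 := by linear_combination h1 - h3
  have h6 := (mul_eq_zero.1 h4).resolve_right (sub_ne_zero.2 hy)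
  have h7 := (mul_eq_zero.1 h5).resolve_right (sub_ne_zero.2 hy')
  apply hl0
  linear_combination (1 / 3 : ℂ) * hlam + (2 / 3 : ℂ) * h6 + (1 / 3 : ℂ) * h7

theorem t_GEO8 : S_GEO8 := by
  intro n l hl
  rintro ⟨b, b', F, F', σ₁, σ₂, τ₁, τ₂, hb, hb', hF, hF', hbF, hbF', hσ₁, hσ₂, hσ, hτ₁, hτ₂, hτ, hT1, hT2, hT3, hT4⟩
  have hb01 : b 0 ≠ b 1 := fun h => absurd (hb h) (by decide)
  have hb12 : b 1 ≠ b 2 := fun h => absurd (hb h) (by decide)
  have hb'01 : b' 0 ≠ b' 1 := fun h => absurd (hb' h) (by decide)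
  have hb'12 : b' 1 ≠ b' 2 := fun h => absurd (hb' h) (by decide)
  -- the planes
  obtain ⟨i, j, hij, hFe⟩ := mem_pts.1 hF
  obtain ⟨i', j', hij', hFe'⟩ := mem_pts.1 hF'
  set U := pt l i j with hU
  set U' := pt l i' j' with hU'
  have fU : Module.finrank ℂ U = 2 := finrank_pt (hl i j hij)
  have fU' : Module.finrank ℂ U' = 2 := finrank_pt (hl i' j' hij')
  have mU : ∀ k, l (b k) ∈ U ∧ l (b k) ∉ U' := by
    intro k
    have h1 := (hbF k).1
    have h2 := (hbF k).2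
    rw [hFe, mem_thr] at h1
    rw [hFe', mem_thr] at h2
    exact ⟨h1, h2⟩
  have mU' : ∀ k, l (b' k) ∈ U' ∧ l (b' k) ∉ U := by
    intro k
    have h1 := (hbF' k).1
    have h2 := (hbF' k).2
    rw [hFe', mem_thr] at h1
    rw [hFe, mem_thr] at h2
    exact ⟨h1, h2⟩
  -- the common vector
  obtain ⟨h, hh0, hhU, hhU'⟩ : ∃ h : V3, h ≠ 0 ∧ h ∈ U ∧ h ∈ U' := by
    have h1 := Submodule.finrank_sup_add_finrank_inf_eq U U'
    have h2 : Module.finrank ℂ (U ⊔ U' : Submodule ℂ V3) ≤ 3 := by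
      have := Submodule.finrank_le (U ⊔ U')
      rwa [Module.finrank_fin_fun] at this
    have h3 : 0 < Module.finrank ℂ (U ⊓ U' : Submodule ℂ V3) := by omega
    obtain ⟨⟨v, hv⟩, hv0⟩ := (Module.finrank_pos_iff_exists_ne_zero).1 h3
    refine ⟨v, fun h0 => hv0 (Subtype.ext h0), hv.1, hv.2⟩
  -- the basis
  have hXh : LinearIndependent ℂ ![l (b 0), h] := by
    rw [LinearIndependent.pair_iff]
    intro s t hst
    have hs : s = 0 := by
      by_contra hs
      apply (mU 0).2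
      have h1 : l (b 0) = (-(s⁻¹ * t)) • h := by
        have h2 : s⁻¹ • (s • l (b 0) + t • h) = 0 := by rw [hst, smul_zero]
        rw [smul_add, smul_smul, smul_smul, inv_mul_cancel₀ hs, one_smul] at h2
        rw [neg_smul]
        exact eq_neg_of_add_eq_zero_left h2
      rw [h1]
      exact U'.smul_mem _ hhU'
    refine ⟨hs, ?_⟩
    rw [hs, zero_smul, zero_add] at hst
    exact (smul_eq_zero.1 hst).resolve_right hh0
  have hspan : Submodule.span ℂ {l (b 0), h} = U := by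
    apply Submodule.eq_of_le_of_finrank_le
    · rw [Submodule.span_le]
      intro v hv
      rcases hv with rfl | hv
      · exact (mU 0).1
      · rw [Set.mem_singleton_iff] at hv
        rw [hv]
        exact hhU
    · have h1 := finrank_span_eq_card hXh
      have h2 : Set.range ![l (b 0), h] = {l (b 0), h} := by
        rw [Matrix.range_cons, Matrix.range_cons, Matrix.range_empty, Set.union_empty]
        rfl
      rw [h2, Fintype.card_fin] at h1
      rw [h1, fU]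
  have hD : D3 (l (b 0)) h (l (b' 0)) ≠ 0 := by
    apply D3_ne hXh
    rw [hspan]
    exact (mU' 0).2
  set e0 : V3 := l (b 0) with he0
  set e2 : V3 := l (b' 0) with he2
  have hcr := fun i : Fin n => cramer hD (l i)
  choose x y z hxyz using hcr
  have c0 : e0 = (1 : ℂ) • e0 + (0 : ℂ) • h + (0 : ℂ) • e2 := by simp
  have c1 : h = (0 : ℂ) • e0 + (1 : ℂ) • h + (0 : ℂ) • e2 := by simp
  have c2 : e2 = (0 : ℂ) • e0 + (0 : ℂ) • h + (1 : ℂ) • e2 := by simp
  -- coordinates of `b i`: third coordinate 0, first coordinate not 0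
  have hbz : ∀ k, z (b k) = 0 := by
    intro k
    have h1 := D3_zero fU.le (mU 0).1 hhU (mU k).1
    have h2 := D3_coord e0 h e2 1 0 0 0 1 0 (x (b k)) (y (b k)) (z (b k))
    rw [← c0, ← c1, ← hxyz, h1] at h2
    have h3 := (mul_eq_zero.1 h2.symm).resolve_right hD
    linear_combination h3
  have hbx : ∀ k, x (b k) ≠ 0 := by
    intro k h0
    apply (mU k).2
    rw [hxyz (b k), h0, hbz, zero_smul, zero_smul, zero_add, add_zero]
    exact U'.smul_mem _ hhU'
  have hb'x : ∀ k, x (b' k) = 0 := by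
    intro k
    have h1 := D3_zero fU'.le hhU' (mU' 0).1 (mU' k).1
    have h2 := D3_coord e0 h e2 0 1 0 0 0 1 (x (b' k)) (y (b' k)) (z (b' k))
    rw [← c1, ← c2, ← hxyz, h1] at h2
    have h3 := (mul_eq_zero.1 h2.symm).resolve_right hD
    linear_combination h3
  have hb'z : ∀ k, z (b' k) ≠ 0 := by
    intro k h0
    apply (mU' k).2
    rw [hxyz (b' k), h0, hb'x, zero_smul, zero_smul, zero_add, add_zero]
    exact U.smul_mem _ hhU
  set p : Fin 3 → ℂ := fun k => y (b k) / x (b k) with hp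
  set q : Fin 3 → ℂ := fun k => y (b' k) / z (b' k) with hq
  have hpy : ∀ k, y (b k) = p k * x (b k) := by
    intro k
    rw [hp]
    simp only
    rw [div_mul_cancel₀ _ (hbx k)]
  have hqy : ∀ k, y (b' k) = q k * z (b' k) := by
    intro k
    rw [hq]
    simp only
    rw [div_mul_cancel₀ _ (hb'z k)]
  have hpinj : ∀ k k', b k ≠ b k' → p k ≠ p k' := by
    intro k k' hkk hpp
    apply hkk
    apply eq_of_prop hl (s := x (b k')) (t := -x (b k)) (Or.inl (hbx k'))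
    rw [hxyz (b k), hxyz (b k'), hbz, hbz, hpy, hpy, hpp]
    module
  have hqinj : ∀ k k', b' k ≠ b' k' → q k ≠ q k' := by
    intro k k' hkk hqq
    apply hkk
    apply eq_of_prop hl (s := z (b' k')) (t := -z (b' k)) (Or.inl (hb'z k'))
    rw [hxyz (b' k), hxyz (b' k'), hb'x, hb'x, hqy, hqy, hqq]
    module
  have hp01 := hpinj 0 1 hb01
  have hp12 := hpinj 1 2 hb12
  have hq01 := hqinj 0 1 hb'01
  have hq12 := hqinj 1 2 hb'12
  set lam : Fin 3 → ℂ := ![p 1 - p 2, p 2 - p 0, p 0 - p 1] with hlamd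
  have L0 : lam 0 = p 1 - p 2 := rfl
  have L1 : lam 1 = p 2 - p 0 := rfl
  have L2 : lam 2 = p 0 - p 1 := rfl
  have hlam : lam 0 + lam 1 + lam 2 = 0 := by rw [L0, L1, L2]; ring
  -- a transversal line
  have htr : ∀ ρ : Equiv.Perm (Fin 3), Tr (pts l) b b' ρ → DD lam q ρ = 0 := by
    rintro ρ ⟨c, hc⟩
    have hrel : ∀ k, y c = x c * p k + z c * q (ρ k) := by
      intro k
      obtain ⟨P, hP, h1, h2, h3⟩ := hc k
      have h4 := D3_block hl hP h1 h2 h3
      have h5 := D3_coord e0 h e2 (x (b k)) (y (b k)) (z (b k)) (x (b' (ρ k))) (y (b' (ρ k))) (z (b' (ρ k))) (x c) (y c) (z c)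
      rw [← hxyz, ← hxyz, ← hxyz, h4] at h5
      have h6 := (mul_eq_zero.1 h5.symm).resolve_right hD
      rw [hbz, hb'x, hpy, hqy] at h6
      have h7 : (x (b k) * z (b' (ρ k))) * (y c - (x c * p k + z c * q (ρ k))) = 0 := by linear_combination -h6
      have h8 := (mul_eq_zero.1 h7).resolve_left (mul_ne_zero (hbx _) (hb'z _))
      linear_combination h8
    have r0 := hrel 0
    have r1 := hrel 1
    have r2 := hrel 2
    have hzc : z c ≠ 0 := by
      intro h0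
      rw [h0] at r0 r1 r2
      have h1 : x c * (p 0 - p 1) = 0 := by linear_combination r1 - r0
      have h2 := (mul_eq_zero.1 h1).resolve_right (sub_ne_zero.2 hp01)
      have h3 : y c = 0 := by rw [r0, h2]; ring
      have h4 : l c = 0 := by rw [hxyz c, h0, h2, h3]; simp
      by_cases h5 : c = b 0
      · have h6 := (hl c (b 1) (h5 ▸ hb01)).ne_zero 0
        exact h6 h4
      · have h6 := (hl c (b 0) h5).ne_zero 0
        exact h6 h4
    have h1 : z c * DD lam q ρ = 0 := by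
      unfold DD
      rw [L0, L1, L2]
      linear_combination (-(p 1 - p 2)) * r0 - (p 2 - p 0) * r1 - (p 0 - p 1) * r2
    exact (mul_eq_zero.1 h1).resolve_left hzc
  have hall : ∀ ρ : Equiv.Perm (Fin 3), DD lam q ρ = 0 := by
    intro ρ
    rcases Int.units_eq_one_or (Equiv.Perm.sign ρ) with hs | hs
    · exact DD_all hlam (hσ₁.trans hσ₂.symm) hσ (htr _ hT1) (htr _ hT2) ρ (hs.trans hσ₁.symm)
    · exact DD_all hlam (hτ₁.trans hτ₂.symm) hτ (htr _ hT3) (htr _ hT4) ρ (hs.trans hτ₁.symm)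
  exact DD_contra hlam (by rw [L0]; exact sub_ne_zero.2 hp12) hq01 hq12 hall

end Pool.Agent.J4H5.TL
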