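import Pool.Agent.J4H13.TL.Jobs

/-!
# Project TL: nine points on three concurrent lines (job GEO9)
-/

set_option autoImplicit false

namespace Pool.Agent.J4H5.TL

open Pool.Agent.J4H13.LA Pool.Agent.J4H13.TL

/-- the determinant of three vectors -/
def D3 (u v w : V3) : ℂ :=
  u 0 * (v 1 * w 2 - v 2 * w 1) - u 1 * (v 0 * w 2 - v 2 * w 0) + u 2 * (v 0 * w 1 - v 1 * w 0)

lemma D3_eq (u v w : V3) : D3 u v w = Matrix.det (Matrix.of ![u, v, w]) := by
  rw [Matrix.det_fin_three]
  change D3 u v w = u 0 * v 1 * w 2 - u 0 * v 2 * w 1 - u 1 * v 0 * w 2 + u 1 * v 2 * w 0 + u 2 * v 0 * w 1 - u 2 * v 1 * w 0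
  unfold D3
  ring

/-- three vectors of a plane -/
lemma D3_zero {W : Submodule ℂ V3} (hW : Module.finrank ℂ W ≤ 2) {u v w : V3} (hu : u ∈ W) (hv : v ∈ W) (hw : w ∈ W) :
    D3 u v w = 0 := by
  rw [D3_eq]
  by_contra h
  have h1 : LinearIndependent ℂ ![u, v, w] := Matrix.linearIndependent_rows_of_det_ne_zero h
  have h2 := finrank_span_eq_card h1
  have h3 : Submodule.span ℂ (Set.range ![u, v, w]) ≤ W := by
    rw [Submodule.span_le]
    rintro x ⟨i, rfl⟩
    fin_cases i
    · exact hu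
    · exact hv
    · exact hw
  have h4 := Submodule.finrank_mono h3
  rw [h2, Fintype.card_fin] at h4
  omega

/-- three independent vectors -/
lemma D3_ne {u v w : V3} (h : LinearIndependent ℂ ![u, v]) (hw : w ∉ Submodule.span ℂ {u, v}) : D3 u v w ≠ 0 := by
  rw [D3_eq]
  have h1 : LinearIndependent ℂ ![u, v, w] := by
    have h2 : LinearIndependent ℂ ![w, u, v] := by
      refine linearIndependent_finCons.2 ⟨h, ?_⟩
      have h3 : Set.range ![u, v] = {u, v} := by
        rw [Matrix.range_cons, Matrix.range_cons, Matrix.range_empty, Set.union_empty]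
        rfl
      rw [h3]
      exact hw
    have h3 := h2.comp ![1, 2, 0] (by decide)
    have h4 : ![w, u, v] ∘ ![1, 2, 0] = ![u, v, w] := by
      funext i
      fin_cases i <;> rfl
    rwa [h4] at h3
  have h2 : LinearIndependent ℂ (Matrix.of ![u, v, w]).row := h1
  exact ((Matrix.isUnit_iff_isUnit_det _).1 (Matrix.linearIndependent_rows_iff_isUnit.1 h2)).ne_zero

/-- Cramer's rule -/
lemma cramer {u v w : V3} (h : D3 u v w ≠ 0) (t : V3) :
    ∃ x y z : ℂ, t = x • u + y • v + z • w := by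
  refine ⟨D3 t v w / D3 u v w, D3 u t w / D3 u v w, D3 u v t / D3 u v w, ?_⟩
  funext i
  have h2 : t i * D3 u v w = D3 t v w * u i + D3 u t w * v i + D3 u v t * w i := by
    unfold D3
    fin_cases i
    · show t 0 * _ = _ * u 0 + _ * v 0 + _ * w 0
      ring
    · show t 1 * _ = _ * u 1 + _ * v 1 + _ * w 1
      ring
    · show t 2 * _ = _ * u 2 + _ * v 2 + _ * w 2
      ring
  simp only [Pi.add_apply, Pi.smul_apply, smul_eq_mul]
  field_simp
  linear_combination h2

/-- the determinant in coordinates -/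
lemma D3_coord (u v w : V3) (x y z x' y' z' x'' y'' z'' : ℂ) :
    D3 (x • u + y • v + z • w) (x' • u + y' • v + z' • w) (x'' • u + y'' • v + z'' • w) =
      (x * (y' * z'' - z' * y'') - y * (x' * z'' - z' * x'') + z * (x' * y'' - y' * x'')) * D3 u v w := by
  unfold D3
  simp only [Pi.add_apply, Pi.smul_apply, smul_eq_mul]
  ring

variable {n : ℕ} {l : Fin n → V3}

/-- three lines of a block -/
lemma D3_block (hl : ∀ i j, i ≠ j → LinearIndependent ℂ ![l i, l j]) {F : Finset (Fin n)} (hF : F ∈ pts l) {i j k : Fin n}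
    (hi : i ∈ F) (hj : j ∈ F) (hk : k ∈ F) : D3 (l i) (l j) (l k) = 0 := by
  obtain ⟨a, b, hab, rfl⟩ := mem_pts.1 hF
  rw [mem_thr] at hi hj hk
  exact D3_zero (finrank_pt (hl a b hab)).le hi hj hk

/-- a line which is not in the block of two other lines -/
lemma D3_notin (hl : ∀ i j, i ≠ j → LinearIndependent ℂ ![l i, l j]) {F : Finset (Fin n)} (hF : F ∈ pts l) {i j k : Fin n}
    (hij : i ≠ j) (hi : i ∈ F) (hj : j ∈ F) (hk : k ∉ F) : D3 (l i) (l j) (l k) ≠ 0 := by
  obtain ⟨a, b, hab, rfl⟩ := mem_pts.1 hF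
  rw [mem_thr] at hi hj hk
  apply D3_ne (hl i j hij)
  have h1 := eq_pt (finrank_pt (hl a b hab)).le (hl i j hij) hi hj
  intro h
  apply hk
  rw [h1]
  exact h

/-- proportional lines are equal -/
lemma eq_of_prop (hl : ∀ i j, i ≠ j → LinearIndependent ℂ ![l i, l j]) {i j : Fin n} {s t : ℂ} (hs : s ≠ 0 ∨ t ≠ 0)
    (h : s • l i + t • l j = 0) : i = j := by
  by_contra hij
  have h1 := hl i j hij
  rw [LinearIndependent.pair_iff] at h1
  obtain ⟨h2, h3⟩ := h1 s t h
  rcases hs with hs | hs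
  · exact hs h2
  · exact hs h3

theorem t_GEO9 : S_GEO9 := by
  intro n l hl
  rintro ⟨b, F, P, c, r, hb, hF, hbF, hP, hPi, hr, hc⟩
  have hLS := isLS hl
  obtain ⟨-, -, huniq⟩ := hLS
  -- the lines `c p q` are not in `F`
  have hcF : ∀ p q, c p q ∉ F := by
    intro p q h
    have h0 : P 0 p = F := huniq _ (hP 0 p).1 _ hF _ _ ((hc p q).2.2.2 0) (hc p q).1 (hP 0 p).2 h (hbF 0)
    have h1 : ∀ q', P 1 q' = F := by
      intro q'
      have h2 : c p q' ∈ F := by
        rw [← h0]
        exact (hc p q').1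
      exact huniq _ (hP 1 q').1 _ hF _ _ ((hc p q').2.2.2 1) (hc p q').2.1 (hP 1 q').2 h2 (hbF 1)
    have h3 : (0 : Fin 3) = 1 := hPi 1 ((h1 0).trans (h1 1).symm)
    exact absurd h3 (by decide)
  have hb01 : b 0 ≠ b 1 := fun h => absurd (hb h) (by decide)
  have hb12 : b 1 ≠ b 2 := fun h => absurd (hb h) (by decide)
  have hb02 : b 0 ≠ b 2 := fun h => absurd (hb h) (by decide)
  have hD := D3_notin hl hF hb01 (hbF 0) (hbF 1) (hcF 0 0)
  set e2 : V3 := l (c 0 0) with he2
  have hcr := fun i => cramer hD (l i)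
  choose x y z hxyz using hcr
  have e0' : l (b 0) = (1 : ℂ) • l (b 0) + (0 : ℂ) • l (b 1) + (0 : ℂ) • e2 := by simp
  have e1' : l (b 1) = (0 : ℂ) • l (b 0) + (1 : ℂ) • l (b 1) + (0 : ℂ) • e2 := by simp
  -- coordinates of the lines of the nine points
  have hz : ∀ p q, z (c p q) ≠ 0 := by
    intro p q h0
    apply D3_notin hl hF hb01 (hbF 0) (hbF 1) (hcF p q)
    rw [hxyz (c p q), h0]
    have := D3_coord (l (b 0)) (l (b 1)) e2 1 0 0 0 1 0 (x (c p q)) (y (c p q)) 0
    rw [← e0', ← e1'] at this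
    rw [this]
    ring
  have hz2 : z (b 2) = 0 := by
    have h1 := D3_block hl hF (hbF 0) (hbF 1) (hbF 2)
    rw [hxyz (b 2)] at h1
    have := D3_coord (l (b 0)) (l (b 1)) e2 1 0 0 0 1 0 (x (b 2)) (y (b 2)) (z (b 2))
    rw [← e0', ← e1', h1] at this
    have h2 : z (b 2) * D3 (l (b 0)) (l (b 1)) e2 = 0 := by
      rw [eq_comm] at this
      linear_combination this
    exact (mul_eq_zero.1 h2).resolve_right hD
  have hx2 : x (b 2) ≠ 0 := by
    intro h0
    apply hb12
    apply eq_of_prop hl (s := y (b 2)) (t := -1) (Or.inr (by norm_num))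
    have := hxyz (b 2)
    rw [h0, hz2, zero_smul, zero_smul, zero_add, add_zero] at this
    rw [← this]
    simp
  -- the three families of blocks
  have hY : ∀ p q q', y (c p q) * z (c p q') = z (c p q) * y (c p q') := by
    intro p q q'
    have h1 := D3_block hl (hP 0 p).1 (hP 0 p).2 (hc p q).1 (hc p q').1
    have h2 := D3_coord (l (b 0)) (l (b 1)) e2 1 0 0 (x (c p q)) (y (c p q)) (z (c p q)) (x (c p q')) (y (c p q')) (z (c p q'))
    rw [← e0', ← hxyz, ← hxyz, h1] at h2
    have h3 := (mul_eq_zero.1 h2.symm).resolve_right hD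
    linear_combination h3
  have hX : ∀ p p' q, x (c p q) * z (c p' q) = z (c p q) * x (c p' q) := by
    intro p p' q
    have h1 := D3_block hl (hP 1 q).1 (hP 1 q).2 (hc p q).2.1 (hc p' q).2.1
    have h2 := D3_coord (l (b 0)) (l (b 1)) e2 0 1 0 (x (c p q)) (y (c p q)) (z (c p q)) (x (c p' q)) (y (c p' q)) (z (c p' q))
    rw [← e1', ← hxyz, ← hxyz, h1] at h2
    have h3 := (mul_eq_zero.1 h2.symm).resolve_right hD
    linear_combination -h3
  have hZ : ∀ p q p' q', r p q = r p' q' → x (b 2) * (y (c p q) * z (c p' q') - z (c p q) * y (c p' q')) =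
      y (b 2) * (x (c p q) * z (c p' q') - z (c p q) * x (c p' q')) := by
    intro p q p' q' hrr
    have h0 := (hc p' q').2.2.1
    rw [← hrr] at h0
    have h1 := D3_block hl (hP 2 (r p q)).1 (hP 2 (r p q)).2 (hc p q).2.2.1 h0
    have h2 := D3_coord (l (b 0)) (l (b 1)) e2 (x (b 2)) (y (b 2)) (z (b 2)) (x (c p q)) (y (c p q)) (z (c p q))
      (x (c p' q')) (y (c p' q')) (z (c p' q'))
    rw [← hxyz, ← hxyz, ← hxyz, h1] at h2
    have h3 := (mul_eq_zero.1 h2.symm).resolve_right hD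
    rw [hz2] at h3
    linear_combination h3
  -- the affine coordinates
  set Y : Fin 3 → ℂ := fun p => y (c p 0) / z (c p 0) with hYd
  set X : Fin 3 → ℂ := fun q => x (c 0 q) / z (c 0 q) with hXd
  have hy : ∀ p q, y (c p q) = Y p * z (c p q) := by
    intro p q
    rw [hYd]
    simp only
    have := hY p q 0
    field_simp [hz p 0]
    linear_combination this
  have hx : ∀ p q, x (c p q) = X q * z (c p q) := by
    intro p q
    rw [hXd]
    simp only
    have := hX p 0 q
    field_simp [hz 0 q]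
    linear_combination this
  have hZ' : ∀ p q p' q', r p q = r p' q' → y (b 2) * X q - x (b 2) * Y p = y (b 2) * X q' - x (b 2) * Y p' := by
    intro p q p' q' hrr
    have h1 := hZ p q p' q' hrr
    rw [hy, hy p' q', hx, hx p' q'] at h1
    have h2 : (z (c p q) * z (c p' q')) * ((y (b 2) * X q - x (b 2) * Y p) - (y (b 2) * X q' - x (b 2) * Y p')) = 0 := by
      linear_combination -h1
    have h3 := (mul_eq_zero.1 h2).resolve_left (mul_ne_zero (hz _ _) (hz _ _))
    linear_combination h3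
  -- the sum over `q`
  have hbij : ∀ p, Function.Bijective (r p) := fun p => (Finite.injective_iff_bijective).1 (hr p)
  have hY01 : Y 0 = Y 1 := by
    let e : Fin 3 ≃ Fin 3 := (Equiv.ofBijective _ (hbij 0)).trans (Equiv.ofBijective _ (hbij 1)).symm
    have he : ∀ q, r 1 (e q) = r 0 q := by
      intro q
      have := (Equiv.ofBijective _ (hbij 1)).apply_symm_apply (r 0 q)
      exact this
    have h1 : ∑ q, (y (b 2) * X q - x (b 2) * Y 0) = ∑ q, (y (b 2) * X (e q) - x (b 2) * Y 1) :=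
      Finset.sum_congr rfl fun q _ => hZ' 0 q 1 (e q) (he q).symm
    rw [Equiv.sum_comp e (fun q => y (b 2) * X q - x (b 2) * Y 1)] at h1
    rw [Fin.sum_univ_three, Fin.sum_univ_three] at h1
    have h2 : x (b 2) * (Y 0 - Y 1) = 0 := by linear_combination (-1 / 3 : ℂ) * h1
    have h3 := (mul_eq_zero.1 h2).resolve_left hx2
    linear_combination h3
  -- two equal lines
  have hcc : c 0 0 = c 1 0 := by
    apply eq_of_prop hl (s := z (c 1 0)) (t := -z (c 0 0)) (Or.inl (hz 1 0))
    rw [hxyz (c 0 0), hxyz (c 1 0), hy 0 0, hy 1 0, hx 0 0, hx 1 0, hY01]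
    module
  have h1 : P 0 0 = P 0 1 := huniq _ (hP 0 0).1 _ (hP 0 1).1 _ _ ((hc 0 0).2.2.2 0) (hc 0 0).1 (hP 0 0).2
    (hcc ▸ (hc 1 0).1) (hP 0 1).2
  exact absurd (hPi 0 h1) (by decide)

end Pool.Agent.J4H5.TL
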